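import Mathlib

/-!
# The tail correlation spindle is not contained in the positive semidefinite matrices

For every `n ≥ 6` the polytope cut out by the facet inequalities of `TCF n` at the vertices `0`
and `1` contains a point whose matrix is not positive semidefinite.
-/

namespace Pool.Agent.Results.MP_db83b6_pr.SpindleNotPSD

open MeasureTheory Module

/-- The set `E_n` of pairs `i < j`. -/
abbrev Pair (n : ℕ) : Type := {p : Fin n × Fin n // p.1 < p.2}

/-- The polytope `TCF_n` of tail correlation functions on `n` points. -/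
def TCF (n : ℕ) : Set (Pair n → ℝ) :=
  {χ | ∃ (Ω : Type) (_ : MeasurableSpace Ω) (μ : Measure Ω), IsProbabilityMeasure μ ∧
    ∃ A : Fin n → Set Ω, (∀ i, MeasurableSet (A i)) ∧ (∀ i, μ.real (A i) = 1 / n) ∧
      ∀ p : Pair n, χ p = n * μ.real (A p.1.1 ∩ A p.1.2)}

/-- The face of `TCF_n` on which `c ⬝ᵥ χ = b`. -/
def face (n : ℕ) (c : Pair n → ℝ) (b : ℝ) : Set (Pair n → ℝ) := {χ | χ ∈ TCF n ∧ c ⬝ᵥ χ = b}

/-- The inequality `c ⬝ᵥ χ ≤ b` is facet-defining for `TCF_n`: it is valid on `TCF_n`, and the
face where it is an equality is nonempty and has dimension one less than `TCF_n`. -/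
structure IsFacetInequality (n : ℕ) (c : Pair n → ℝ) (b : ℝ) : Prop where
  valid : ∀ χ ∈ TCF n, c ⬝ᵥ χ ≤ b
  nonempty : (face n c b).Nonempty
  codim_one : finrank ℝ (vectorSpan ℝ (face n c b)) + 1 = finrank ℝ (vectorSpan ℝ (TCF n))

/-- The vertex `v₀ = (0, …, 0)`. -/
def v₀ (n : ℕ) : Pair n → ℝ := fun _ => 0

/-- The vertex `v₁ = (1, …, 1)`. -/
def v₁ (n : ℕ) : Pair n → ℝ := fun _ => 1

/-- The spindle `TCF_n(v₀, v₁)`: the points that satisfy the facet-defining inequalities of all
facets of `TCF_n` containing `v₀` or `v₁`. -/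
def spindle (n : ℕ) : Set (Pair n → ℝ) :=
  {x | ∀ (c : Pair n → ℝ) (b : ℝ), IsFacetInequality n c b →
    (v₀ n ∈ face n c b ∨ v₁ n ∈ face n c b) → c ⬝ᵥ x ≤ b}

/-- The symmetric matrix `X(x)` with diagonal entries `1` and off-diagonal entries `x_ij`. -/
def X {n : ℕ} (x : Pair n → ℝ) : Matrix (Fin n) (Fin n) ℝ := fun i j =>
  if h : i < j then x ⟨(i, j), h⟩ else if h : j < i then x ⟨(j, i), h⟩ else 1

/-- The set `PSD_n`. -/
def PSD (n : ℕ) : Set (Pair n → ℝ) := {x | (X x).PosSemidef}

/-! ### Partition points -/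

/-- For every labelling `f` the point with `χ_ij = 1` if `f i = f j` and `0` otherwise lies in
`TCF_n`: take `A_i = {f i}` in the uniform probability space on `n` points. -/
lemma partition_mem {n : ℕ} (hn : 0 < n) (f : Fin n → Fin n) :
    (fun p : Pair n => if f p.1.1 = f p.1.2 then (1 : ℝ) else 0) ∈ TCF n := by
  have : Nonempty (Fin n) := ⟨⟨0, hn⟩⟩
  refine ⟨Fin n, ⊤, (PMF.uniformOfFintype (Fin n)).toMeasure, PMF.toMeasure.isProbabilityMeasure _,
    fun i => {f i}, fun _ => trivial, fun i => ?_, fun p => ?_⟩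
  · rw [measureReal_def, PMF.toMeasure_uniformOfFintype_apply _ (by trivial)]
    simp
  · have hn' : (n : ℝ) ≠ 0 := by exact_mod_cast hn.ne'
    by_cases h : f p.1.1 = f p.1.2
    · rw [measureReal_def, PMF.toMeasure_uniformOfFintype_apply _ (by trivial)]
      simp [h, hn']
    · have : ({f p.1.1} : Set (Fin n)) ∩ {f p.1.2} = ∅ := by
        ext a; simp only [Set.mem_inter_iff, Set.mem_singleton_iff, Set.mem_empty_iff_false,
          iff_false, not_and]
        rintro rfl h2
        exact h h2
      simp [h, this]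

/-- The point `x` with `x_in = 1/2` for `i < n` and all other coordinates `0`.  Here `l` is the
last index. -/
noncomputable def pt {n : ℕ} (l : Fin n) : Pair n → ℝ := fun p => if p.1.2 = l then 1 / 2 else 0

lemma pt_mem {n : ℕ} (hn : 2 ≤ n) (l : Fin n) (hl : ∀ i, i ≤ l) : pt l ∈ spindle n := by
  intro c b hf hv
  rcases hv with hv | hv
  · -- tight at `v₀`
    have hb : b = 0 := by
      have := hv.2
      simp [v₀, dotProduct] at this
      exact this.symm
    subst hb
    have hc : ∀ p : Pair n, c p ≤ 0 := by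
      intro p
      have h := hf.valid _ (partition_mem (by omega) (fun i => if i = p.1.2 then p.1.1 else i))
      have h2 : c ⬝ᵥ (fun q : Pair n => if (if q.1.1 = p.1.2 then p.1.1 else q.1.1) =
          (if q.1.2 = p.1.2 then p.1.1 else q.1.2) then (1 : ℝ) else 0) = c p := by
        rw [dotProduct, Finset.sum_eq_single p]
        · have : p.1.1 ≠ p.1.2 := p.2.ne
          simp [this]
        · intro q _ hq
          have h1 := p.2
          have h2 := q.2
          have h3 : ¬ (q.1.1 = p.1.1 ∧ q.1.2 = p.1.2) := by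
            rintro ⟨h4, h5⟩
            exact hq (Subtype.ext (Prod.ext h4 h5))
          split_ifs <;> simp_all [Fin.ext_iff] <;> omega
        · simp
      rwa [h2] at h
    rw [dotProduct]
    refine Finset.sum_nonpos fun p _ => ?_
    refine mul_nonpos_of_nonpos_of_nonneg (hc p) ?_
    unfold pt
    split_ifs <;> norm_num
  · -- tight at `v₁`
    have hb : b = ∑ p, c p := by
      have := hv.2
      simp [v₁, dotProduct] at this
      exact this.symm
    -- the partition separating `i` from all the others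
    have key : ∀ i : Fin n, i ≠ l → 0 ≤ ∑ p : Pair n, c p *
        (if p.1.1 = i ∨ p.1.2 = i then 1 else 0) := by
      intro i hi
      have h := hf.valid _ (partition_mem (by omega) (fun j => if j = i then i else l))
      rw [hb, dotProduct, ← sub_nonneg, ← Finset.sum_sub_distrib] at h
      refine h.trans (le_of_eq (Finset.sum_congr rfl fun p _ => ?_))
      have h1 := p.2
      split_ifs <;> simp_all
    have hsum : 0 ≤ ∑ i ∈ Finset.univ.erase l, ∑ p : Pair n, c p *
        (if p.1.1 = i ∨ p.1.2 = i then 1 else 0) :=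
      Finset.sum_nonneg fun i hi => key i (Finset.ne_of_mem_erase hi)
    rw [Finset.sum_comm] at hsum
    have hcount : ∀ p : Pair n, ∑ i ∈ Finset.univ.erase l, c p *
        (if p.1.1 = i ∨ p.1.2 = i then (1 : ℝ) else 0) = 2 * (c p * (1 - pt l p)) := by
      intro p
      have h1 := p.2
      have h2 : p.1.1 ≠ l := fun h => absurd (hl p.1.2) (by rw [← h]; exact not_le.mpr h1)
      rw [← Finset.mul_sum]
      have h3 : ∀ i : Fin n, (if p.1.1 = i ∨ p.1.2 = i then (1 : ℝ) else 0) =
          (if p.1.1 = i then 1 else 0) + (if p.1.2 = i then 1 else 0) := by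
        intro i
        by_cases h4 : p.1.1 = i
        · have h5 : p.1.2 ≠ i := fun h => absurd h1 (by rw [h4, h]; exact lt_irrefl _)
          simp [h4, h5]
        · simp [h4]
      simp_rw [h3, Finset.sum_add_distrib, Finset.sum_ite_eq]
      by_cases h6 : p.1.2 = l
      · simp [pt, h2, h6]; ring
      · simp [pt, h2, h6]; ring
    simp_rw [hcount] at hsum
    rw [← Finset.mul_sum] at hsum
    rw [hb, dotProduct, ← sub_nonneg, ← Finset.sum_sub_distrib]
    have : ∑ p, (c p - c p * pt l p) = ∑ p, c p * (1 - pt l p) :=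
      Finset.sum_congr rfl fun p _ => by ring
    rw [this]
    linarith

lemma X_pt {n : ℕ} (l : Fin n) (hl : ∀ i, i ≤ l) (i j : Fin n) :
    X (pt l) i j = if i = j then 1 else if i = l ∨ j = l then 1 / 2 else 0 := by
  unfold X pt
  rcases lt_trichotomy i j with h | h | h
  · have h1 : i ≠ l := fun h' => absurd (hl j) (by rw [← h']; exact not_le.mpr h)
    simp [h, h.ne, h1]
  · subst h; simp
  · have h1 : j ≠ l := fun h' => absurd (hl i) (by rw [← h']; exact not_le.mpr h)
    simp [h, h.ne', h1, not_lt.mpr h.le]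

lemma pt_not_mem {n : ℕ} (hn : 6 ≤ n) (l : Fin n) (hl : ∀ i, i ≤ l) : pt l ∉ PSD n := by
  intro h
  have h1 := h.dotProduct_mulVec_nonneg (fun i => if i = l then (-2 : ℝ) else 1)
  have hn' : (6 : ℝ) ≤ n := by exact_mod_cast hn
  have hrow : ∀ i : Fin n, (Matrix.mulVec (X (pt l)) (fun i => if i = l then (-2 : ℝ) else 1)) i =
      if i = l then ((n : ℝ) - 1) / 2 - 2 else 0 := by
    intro i
    simp only [Matrix.mulVec, dotProduct]
    by_cases hi : i = l
    · subst hi
      simp only [if_true]
      rw [← Finset.add_sum_erase _ _ (Finset.mem_univ i)]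
      have : ∑ x ∈ Finset.univ.erase i, X (pt i) i x * (if x = i then (-2 : ℝ) else 1) =
          ∑ x ∈ Finset.univ.erase i, (1 / 2 : ℝ) := by
        refine Finset.sum_congr rfl fun x hx => ?_
        have hx' : x ≠ i := Finset.ne_of_mem_erase hx
        rw [X_pt i hl]
        simp [hx', hx'.symm]
      rw [this, X_pt i hl]
      simp only [Finset.sum_const, Finset.card_erase_of_mem (Finset.mem_univ i), Finset.card_univ,
        Fintype.card_fin, nsmul_eq_mul, if_true]
      rw [Nat.cast_sub (by omega)]
      push_cast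
      ring
    · simp only [hi, if_false]
      rw [Finset.sum_eq_add i l hi]
      · rw [X_pt l hl, X_pt l hl]
        simp [hi]
      · intro x _ hx
        rw [X_pt l hl]
        simp [hx.1, hx.2, hi, Ne.symm hx.1]
      · simp
      · simp
  simp only [dotProduct, hrow] at h1
  simp at h1
  linarith

/-- For every `n ≥ 6` the spindle `TCF_n(v₀, v₁)` is not contained in `PSD_n`. -/
theorem result (n : ℕ) (hn : 6 ≤ n) : ¬ spindle n ⊆ PSD n := by
  intro h
  have hl : ∀ i : Fin n, i ≤ ⟨n - 1, by omega⟩ := fun i => by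
    rw [Fin.le_def]; simp; omega
  exact pt_not_mem hn _ hl (h (pt_mem (by omega) _ hl))

end Pool.Agent.Results.MP_db83b6_pr.SpindleNotPSD
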